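import Pool.Agent.J4H41.AM.Final

/-!
# Av(2413) and Av(3142) are 2-amalgamable

Answer (yes) to the question whether there is a 2-amalgamable permutation class which is not contained
in the class of separable permutations and is not the class of all permutations.

Proof (all of it in `Pool/Agent/J4H41/AM`, two steps in `Pool/Agent/J4H70/AM`, by helper70).  By symmetry
it suffices to amalgamate two 3142-avoiding point configurations `X`, `Y` over an increasing pair
`a < b`.  Around `b` a 3142-avoiding configuration is described by polar data: quadrants, and
comparisons between points of the same quadrant or of consecutive quadrants only.  The relation
`z` cuts before `p` is well founded, which gives a rank function (a spiral around `b`), and only points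
of equal or consecutive ranks interact.  The segment of `a` (the points of the rank of `a` in the same
gap as `a`) together with one representative of each gap of the points that cut it is the core.  An
amalgam of the cores extends to an amalgam of `X` and `Y`: all other points get labels along strands,
and at the places where the two configurations meet they are shuffled monotonically.  If the
cores, for `b` and (after a rotation) for `a`, are everything, then all other points lie horizontally
between `a` and `b`, the points above `b` are decreasing and so are the points below `a`, and the amalgam
is explicit.
-/

set_option autoImplicit false

namespace Pool.Agent.Results.MP_d55b77_co.TwoAmalgamable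

open Pool.Agent.J4H41.AM

/-- `Av(2413)` and `Av(3142)` are 2-amalgamable permutation classes, they are not contained in the class
of separable permutations `Av(2413, 3142)` and they are not the class of all permutations. -/
theorem result (C : Set P) (hC : C = Av {⟨4, p2413⟩} ∨ C = Av {⟨4, p3142⟩}) :
    IsClass C ∧ TwoAmalgamable C ∧ ¬ C ⊆ Sep ∧ C ≠ Set.univ := by
  rcases hC with rfl | rfl
  · exact t_FINAL.2
  · exact t_FINAL.1

end Pool.Agent.Results.MP_d55b77_co.TwoAmalgamable
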